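import Pool.Agent.HB.L.Good

/-!
# HB.L.Six: lower 6-estimate for heads and tails

PROOF.  Let `A = LG(P y)³`, `B = LG(Q y)³`, `P = res (Iio n)`, `Q = res (Ici n)`.  If both are `0` trivial.  Given `δ > 0` choose
`γ₁, γ₂ ∈ Γ` with `Phi γ₁ (P y) ≥ A - δ`, `Phi γ₂ (Q y) ≥ B - δ`; `θ = A²/(A²+B²)`, `γ = θ γ₁ + (1-θ) γ₂ ∈ Γ`.  Since
`√(θ γ₁ + (1-θ) γ₂) ≥ √θ √γ₁` and `≥ √(1-θ) √γ₂`,
`LG(y)³ ≥ Phi γ y = Phi γ (P y) + Phi γ (Q y) ≥ √θ (A-δ) + √(1-θ) (B-δ) → √(A²+B²)`.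
-/

open Finset

namespace Pool.Agent.HB

private theorem Phi_mono_left {γ γ' : RV} (h : ∀ i, γ i ≤ γ' i) (x : CV) : Phi γ x ≤ Phi γ' x :=
  Finset.sum_le_sum fun i _ => mul_le_mul_of_nonneg_left (Real.sqrt_le_sqrt (h i))
    (pow_nonneg (norm_nonneg _) _)

private theorem Phi_split (n : ℕ) (γ : RV) (y : CV) :
    Phi γ y = Phi γ (res (Set.Iio n) y) + Phi γ (res (Set.Ici n) y) := by
  have h1 : (res (Set.Iio n) y).support ⊆ y.support := fun i hi => ((res_support _ _).1 hi).2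
  have h2 : (res (Set.Ici n) y).support ⊆ y.support := fun i hi => ((res_support _ _).1 hi).2
  rw [Phi_eq_sum γ _ _ h1, Phi_eq_sum γ _ _ h2, ← Finset.sum_add_distrib, Phi]
  refine Finset.sum_congr rfl fun i _ => ?_
  by_cases hi : i < n
  · rw [res_apply_mem (Set.Iio n) y hi, res_apply_not_mem (Set.Ici n) y (not_le.2 hi), norm_zero]
    ring
  · rw [res_apply_not_mem (Set.Iio n) y hi, res_apply_mem (Set.Ici n) y (not_lt.1 hi), norm_zero]
    ring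

theorem six_lower {Γ : Set RV} (hΓ : GoodSet Γ) (n : ℕ) (y : CV) :
    LG Γ (res (Set.Iio n) y) ^ 6 + LG Γ (res (Set.Ici n) y) ^ 6 ≤ LG Γ y ^ 6 := by
  have hA0 : 0 ≤ LG Γ (res (Set.Iio n) y) ^ 3 := pow_nonneg (LG_nonneg hΓ _) _
  have hB0 : 0 ≤ LG Γ (res (Set.Ici n) y) ^ 3 := pow_nonneg (LG_nonneg hΓ _) _
  have hC0 : 0 ≤ LG Γ y ^ 3 := pow_nonneg (LG_nonneg hΓ _) _
  obtain ⟨A, hA⟩ : ∃ A, A = LG Γ (res (Set.Iio n) y) ^ 3 := ⟨_, rfl⟩
  obtain ⟨B, hB⟩ : ∃ B, B = LG Γ (res (Set.Ici n) y) ^ 3 := ⟨_, rfl⟩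
  obtain ⟨C, hC⟩ : ∃ C, C = LG Γ y ^ 3 := ⟨_, rfl⟩
  have e1 : LG Γ (res (Set.Iio n) y) ^ 6 = A ^ 2 := by rw [hA]; ring
  have e2 : LG Γ (res (Set.Ici n) y) ^ 6 = B ^ 2 := by rw [hB]; ring
  have e3 : LG Γ y ^ 6 = C ^ 2 := by rw [hC]; ring
  rw [← hA] at hA0
  rw [← hB] at hB0
  rw [← hC] at hC0
  rw [e1, e2, e3]
  obtain ⟨s, hs⟩ : ∃ s, s = √(A ^ 2 + B ^ 2) := ⟨_, rfl⟩
  have hs2 : s ^ 2 = A ^ 2 + B ^ 2 := by
    rw [hs]
    exact Real.sq_sqrt (by positivity)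
  have hs0 : 0 ≤ s := by rw [hs]; exact Real.sqrt_nonneg _
  rcases hs0.eq_or_lt with hz | hpos
  · rw [← hs2, ← hz, zero_pow (by norm_num)]
    positivity
  have hAs : (A / s) ^ 2 + (B / s) ^ 2 = 1 := by
    rw [div_pow, div_pow, ← add_div, ← hs2, div_self (by positivity)]
  have hkey : ∀ δ : ℝ, 0 < δ → s ≤ C + δ * ((A + B) / s) := by
    intro δ hδ
    obtain ⟨γ₁, h1, h1'⟩ := LG_exists hΓ (res (Set.Iio n) y) hδ
    obtain ⟨γ₂, h2, h2'⟩ := LG_exists hΓ (res (Set.Ici n) y) hδ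
    rw [← hA] at h1'
    rw [← hB] at h2'
    have hγ : ((A / s) ^ 2) • γ₁ + ((B / s) ^ 2) • γ₂ ∈ Γ :=
      hΓ.conv h1 h2 (by positivity) (by positivity) hAs
    have h3 := Phi_le_LG hΓ hγ y
    rw [← hC, Phi_split n] at h3
    have hsq1 : √((A / s) ^ 2) = A / s := Real.sqrt_sq (by positivity)
    have hsq2 : √((B / s) ^ 2) = B / s := Real.sqrt_sq (by positivity)
    have h4 : A / s * (A - δ) ≤
        Phi (((A / s) ^ 2) • γ₁ + ((B / s) ^ 2) • γ₂) (res (Set.Iio n) y) := by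
      refine le_trans ?_ (Phi_mono_left (γ := ((A / s) ^ 2) • γ₁) (fun i => ?_) _)
      · rw [Phi_smul_left _ (by positivity), hsq1]
        exact mul_le_mul_of_nonneg_left h1' (by positivity)
      · rw [Finsupp.add_apply]
        have h5 : 0 ≤ (((B / s) ^ 2) • γ₂) i := by
          rw [Finsupp.smul_apply, smul_eq_mul]
          exact mul_nonneg (by positivity) (hΓ.nn γ₂ h2 i)
        linarith
    have h5 : B / s * (B - δ) ≤
        Phi (((A / s) ^ 2) • γ₁ + ((B / s) ^ 2) • γ₂) (res (Set.Ici n) y) := by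
      refine le_trans ?_ (Phi_mono_left (γ := ((B / s) ^ 2) • γ₂) (fun i => ?_) _)
      · rw [Phi_smul_left _ (by positivity), hsq2]
        exact mul_le_mul_of_nonneg_left h2' (by positivity)
      · rw [Finsupp.add_apply]
        have h6 : 0 ≤ (((A / s) ^ 2) • γ₁) i := by
          rw [Finsupp.smul_apply, smul_eq_mul]
          exact mul_nonneg (by positivity) (hΓ.nn γ₁ h1 i)
        linarith
    have h6 : A / s * (A - δ) + B / s * (B - δ) = s - δ * ((A + B) / s) := by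
      have h7 : A / s * (A - δ) + B / s * (B - δ) = (A ^ 2 + B ^ 2) / s - δ * ((A + B) / s) := by
        ring
      rw [h7, ← hs2, sq, mul_div_assoc, div_self hpos.ne', mul_one]
    linarith
  have hsC : s ≤ C := by
    refine le_of_forall_pos_le_add fun ε hε => ?_
    have hAB : 0 ≤ (A + B) / s := by positivity
    have h7 := hkey (ε / ((A + B) / s + 1)) (by positivity)
    have h8 : ε / ((A + B) / s + 1) * ((A + B) / s) ≤ ε := by
      rw [div_mul_eq_mul_div, div_le_iff₀ (by positivity)]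
      nlinarith
    linarith
  rw [← hs2]
  exact pow_le_pow_left₀ hs0 hsC 2

end Pool.Agent.HB
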