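import Pool.Agent.HB.L.Good
import Pool.Agent.HB.T.Gamma

/-!
# HB.L.Transfer: from `Lf` to `TT`

PROOF of `transfer`.  Replace `γ` by its restriction `γ'` to the support of `f` (as a set): `Phi γ f = Phi γ' f`.  Let
`s = sup {dot γ' w | 0 ≤ w, TT w ≤ 1}` (finite: `dot γ' w ≤ ∑ γ'_i w_i`, `w i ≤ TT w ≤ 1`).  If `s = 0` then `γ' i = dot γ' (single i 1) ≤ 0`,
so `γ' = 0`, `Phi = 0` and `w = 0` works.  If `s > 0` then `γ'/s ∈ Gam` (for `y ≥ 0`: if `TT y > 0` use `w = y/TT y`; if `TT y = 0`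
then `y = 0` by `coord_le_TT`), so `Phi γ' f = √s Phi (γ'/s) f ≤ √s Lf(f)³`; choose `w` with `dot γ' w ≥ s/2` and replace it by
`res (support f) w` (`dot γ' w` unchanged, `TT` decreases), so `(Phi γ f)² ≤ s Lf(f)⁶ ≤ 2 Lf(f)⁶ dot γ w`.

`transfer_avg`: `f = N^{-1/3} ∑ f q`: `Phi γ f = (1/N) ∑ Phi γ (f q)` (`Phi_disj`, `Phi_smul`), apply `transfer` to each `f q`,
`Phi γ (f q) ≤ (2A⁶ dot γ (w q))^{1/2}`, and Cauchy-Schwarz `((1/N)∑ √a_q)² ≤ (1/N) ∑ a_q`.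
`transfer_exact`: `f = (m^{1/2}/n)^{1/3} ∑_{l<n} f l` where each `f l` has `(Phi γ (f l))² ≤ B dot γ (w l)`:
`Phi γ f = (√m/n) ∑ Phi γ (f l)`, so `(Phi γ f)² ≤ (m/n²) (∑ √(B dot γ (w l)))² ≤ (m/n²) n B ∑ dot γ (w l) = B dot γ ((m/n) ∑ w l)`.
-/

open Finset

namespace Pool.Agent.HB

variable (p : Par)

/-- Phi of the restriction of the functional to the support -/
theorem transfer_res (γ : RV) (f : CV) : Phi (res {i | i ∈ f.support} γ) f = Phi γ f := by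
  rw [Phi_res_left, res_eq_self {i | i ∈ f.support} f fun i hi => hi]

theorem Phi_zero_left (f : CV) : Phi (0 : RV) f = 0 := by
  unfold Phi
  simp

theorem transfer (f : CV) (γ : RV) (hγ : 0 ≤ γ) :
    ∃ w : RV, 0 ≤ w ∧ w.support ⊆ f.support ∧ TT p w ≤ 1 ∧
      (Phi γ f) ^ 2 ≤ 2 * Lf p f ^ 6 * dot γ w := by
  set E : Set ℕ := {i | i ∈ f.support} with hE
  set γ' := res E γ with hγ'
  have hγ'0 : 0 ≤ γ' := res_nonneg E hγ
  have hPhi : Phi γ' f = Phi γ f := transfer_res γ f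
  set A : Set ℝ := (fun w => dot γ' w) '' {w : RV | 0 ≤ w ∧ TT p w ≤ 1} with hA
  have hne : A.Nonempty := ⟨dot γ' 0, 0, ⟨le_rfl, by rw [TT_zero]; exact zero_le_one⟩, rfl⟩
  have hbdd : BddAbove A := by
    refine ⟨∑ i ∈ γ'.support, γ' i, ?_⟩
    rintro _ ⟨w, ⟨hw0, hw1⟩, rfl⟩
    dsimp only
    rw [dot_eq_sum γ' w _ (Finset.Subset.refl _)]
    refine Finset.sum_le_sum fun i _ => ?_
    have h1 : w i ≤ 1 := (coord_le_TT (p := p) w i).trans hw1
    have h2 : 0 ≤ γ' i := hγ'0 i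
    nlinarith
  set s := sSup A with hs
  have hle : ∀ w : RV, 0 ≤ w → TT p w ≤ 1 → dot γ' w ≤ s := fun w h1 h2 =>
    le_csSup hbdd ⟨w, ⟨h1, h2⟩, rfl⟩
  have hs0 : 0 ≤ s := by
    have := hle 0 le_rfl (by rw [TT_zero]; exact zero_le_one)
    rwa [dot_zero_right] at this
  rcases hs0.eq_or_lt with h0 | h0
  · have hz : γ' = 0 := by
      ext i
      refine le_antisymm ?_ (hγ'0 i)
      have := hle (Finsupp.single i 1) (single_one_nonneg i) (TT_single i).le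
      rw [dot_single_right, mul_one] at this
      rw [← h0] at this
      exact this
    refine ⟨0, le_rfl, by simp, by rw [TT_zero]; exact zero_le_one, ?_⟩
    rw [← hPhi, hz, Phi_zero_left, dot_zero_right]
    norm_num
  · have hmem : (1 / s) • γ' ∈ Gam p := by
      refine ⟨fun i => ?_, fun y hy => ?_⟩
      · rw [Finsupp.smul_apply]
        exact mul_nonneg (div_nonneg zero_le_one hs0) (hγ'0 i)
      · rw [dot_smul_left]
        rcases (TT_nonneg (p := p) y).eq_or_lt with h1 | h1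
        · have hy0 : y = 0 := by
            ext i
            refine le_antisymm ?_ (hy i)
            exact (coord_le_TT (p := p) y i).trans h1.symm.le
          rw [hy0, dot_zero_right, mul_zero, TT_zero]
        · have h2 := hle ((1 / TT p y) • y) (fun i => by
            rw [Finsupp.smul_apply]
            exact mul_nonneg (div_nonneg zero_le_one h1.le) (hy i)) (by
            rw [TT_smul (div_nonneg zero_le_one h1.le), one_div, inv_mul_cancel₀ h1.ne'])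
          rw [dot_smul_right, one_div, inv_mul_le_iff₀ h1] at h2
          rw [one_div, inv_mul_le_iff₀ h0, mul_comm]
          exact h2
    have h3 := Phi_le_LG (good_gam p) hmem f
    have h4 : Phi γ' f = √s * Phi ((1 / s) • γ') f := by
      rw [← Phi_smul_left s hs0, smul_smul, mul_one_div_cancel h0.ne', one_smul]
    have h5 : (Phi γ f) ^ 2 ≤ s * Lf p f ^ 6 := by
      rw [← hPhi, h4, mul_pow, Real.sq_sqrt hs0]
      refine mul_le_mul_of_nonneg_left ?_ hs0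
      have h6 := pow_le_pow_left₀ (Phi_nonneg ((1 / s) • γ') f) h3 2
      calc Phi ((1 / s) • γ') f ^ 2 ≤ (LG (Gam p) f ^ 3) ^ 2 := h6
        _ = Lf p f ^ 6 := by
          rw [← pow_mul]
    have h7 : s / 2 < sSup A := by
      rw [← hs]
      linarith
    obtain ⟨_, ⟨w, ⟨hw0, hw1⟩, rfl⟩, h8⟩ := exists_lt_of_lt_csSup hne h7
    have h9 : dot γ (res E w) = dot γ' w := (dot_res_left E γ w).symm
    refine ⟨res E w, res_nonneg E hw0, fun i hi => ((res_support E w).1 hi).1,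
      (TT_res_le hw0 E).trans hw1, h5.trans ?_⟩
    rw [h9]
    have h10 : 0 ≤ Lf p f ^ 6 := pow_nonneg (LG_nonneg (good_gam p) f) 6
    have h11 : s ≤ 2 * dot γ' w := by
      have : s / 2 < dot γ' w := h8
      linarith
    calc s * Lf p f ^ 6 ≤ (2 * dot γ' w) * Lf p f ^ 6 := mul_le_mul_of_nonneg_right h11 h10
      _ = 2 * Lf p f ^ 6 * dot γ' w := by ring

theorem rpow_third_cube {x : ℝ} (hx : 0 < x) : (x ^ (-(1 : ℝ) / 3)) ^ 3 = 1 / x := by
  rw [← Real.rpow_natCast, ← Real.rpow_mul hx.le]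
  norm_num
  rw [Real.rpow_neg_one]

theorem transfer_avg (N : ℕ) (hN : 0 < N) (f : ℕ → CV) (A : ℝ)
    (hA : ∀ q < N, Lf p (f q) ≤ A)
    (hd : ∀ q < N, ∀ q' < N, q ≠ q' → Disjoint (f q).support (f q').support)
    (γ : RV) (hγ : 0 ≤ γ) :
    ∃ w : ℕ → RV, (∀ q < N, 0 ≤ w q) ∧ (∀ q < N, (w q).support ⊆ (f q).support) ∧
      (∀ q < N, TT p (w q) ≤ 1) ∧
      (Phi γ ((((N : ℝ) ^ (-(1 : ℝ) / 3) : ℝ) : ℂ) • ∑ q ∈ range N, f q)) ^ 2 ≤
        2 * A ^ 6 * dot γ ((1 / (N : ℝ)) • ∑ q ∈ range N, w q) := by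
  have hex := fun q => transfer p (f q) γ hγ
  choose w hw0 hws hwT hwP using hex
  refine ⟨w, fun q _ => hw0 q, fun q _ => hws q, fun q _ => hwT q, ?_⟩
  have hN' : (0 : ℝ) < N := Nat.cast_pos.2 hN
  have hc : ‖(((N : ℝ) ^ (-(1 : ℝ) / 3) : ℝ) : ℂ)‖ ^ 3 = 1 / N := by
    rw [Complex.norm_real, Real.norm_of_nonneg (Real.rpow_nonneg hN'.le _), rpow_third_cube hN']
  rw [Phi_smul, hc, Phi_disj (range N) f (fun q hq q' hq' h =>
    hd q (Finset.mem_range.1 hq) q' (Finset.mem_range.1 hq') h) γ, dot_smul_right, dot_sum_right]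
  have h1 := sq_sum_le_card_mul_sum_sq (s := range N) (f := fun q => Phi γ (f q))
  rw [Finset.card_range] at h1
  have h2 : ∑ q ∈ range N, Phi γ (f q) ^ 2 ≤ ∑ q ∈ range N, 2 * A ^ 6 * dot γ (w q) := by
    refine Finset.sum_le_sum fun q hq => (hwP q).trans ?_
    have h3 := pow_le_pow_left₀ (LG_nonneg (good_gam p) (f q)) (hA q (Finset.mem_range.1 hq)) 6
    have h4 := dot_nonneg hγ (hw0 q)
    nlinarith
  rw [← Finset.mul_sum] at h2
  calc (1 / (N : ℝ) * ∑ q ∈ range N, Phi γ (f q)) ^ 2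
      = (1 / (N : ℝ)) ^ 2 * (∑ q ∈ range N, Phi γ (f q)) ^ 2 := mul_pow _ _ _
    _ ≤ (1 / (N : ℝ)) ^ 2 * (N * ∑ q ∈ range N, Phi γ (f q) ^ 2) :=
        mul_le_mul_of_nonneg_left h1 (sq_nonneg _)
    _ = (1 / (N : ℝ)) * ∑ q ∈ range N, Phi γ (f q) ^ 2 := by
        field_simp
    _ ≤ (1 / (N : ℝ)) * (2 * A ^ 6 * ∑ q ∈ range N, dot γ (w q)) :=
        mul_le_mul_of_nonneg_left h2 (div_nonneg zero_le_one hN'.le)
    _ = 2 * A ^ 6 * (1 / (N : ℝ) * ∑ q ∈ range N, dot γ (w q)) := by ring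

theorem transfer_exact (m : ℝ) (hm : 0 < m) (n : ℕ) (hn : 0 < n) (f : ℕ → CV) (B : ℝ) (hB : 0 ≤ B)
    (hd : ∀ l < n, ∀ l' < n, l ≠ l' → Disjoint (f l).support (f l').support)
    (γ : RV) (w : ℕ → RV) (hw : ∀ l < n, (Phi γ (f l)) ^ 2 ≤ B * dot γ (w l)) :
    (Phi γ (((m ^ ((1 : ℝ) / 6) * (n : ℝ) ^ (-(1 : ℝ) / 3) : ℝ) : ℂ) • ∑ l ∈ range n, f l)) ^ 2 ≤
      B * dot γ ((m / (n : ℝ)) • ∑ l ∈ range n, w l) := by
  have hn' : (0 : ℝ) < n := Nat.cast_pos.2 hn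
  have hc : (‖((m ^ ((1 : ℝ) / 6) * (n : ℝ) ^ (-(1 : ℝ) / 3) : ℝ) : ℂ)‖ ^ 3) ^ 2 =
      m / n ^ 2 := by
    rw [Complex.norm_real, Real.norm_of_nonneg (mul_nonneg (Real.rpow_nonneg hm.le _)
      (Real.rpow_nonneg hn'.le _)), mul_pow, rpow_third_cube hn', mul_pow, ← pow_mul,
      ← Real.rpow_natCast (m ^ ((1 : ℝ) / 6)), ← Real.rpow_mul hm.le]
    norm_num
    rw [div_eq_mul_inv]
  rw [Phi_smul, mul_pow, hc, Phi_disj (range n) f (fun q hq q' hq' h =>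
    hd q (Finset.mem_range.1 hq) q' (Finset.mem_range.1 hq') h) γ, dot_smul_right, dot_sum_right]
  have h1 := sq_sum_le_card_mul_sum_sq (s := range n) (f := fun q => Phi γ (f q))
  rw [Finset.card_range] at h1
  have h2 : ∑ q ∈ range n, Phi γ (f q) ^ 2 ≤ ∑ q ∈ range n, B * dot γ (w q) :=
    Finset.sum_le_sum fun q hq => hw q (Finset.mem_range.1 hq)
  rw [← Finset.mul_sum] at h2
  calc m / (n : ℝ) ^ 2 * (∑ q ∈ range n, Phi γ (f q)) ^ 2
      ≤ m / (n : ℝ) ^ 2 * (n * ∑ q ∈ range n, Phi γ (f q) ^ 2) :=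
        mul_le_mul_of_nonneg_left h1 (by positivity)
    _ = m / (n : ℝ) * ∑ q ∈ range n, Phi γ (f q) ^ 2 := by
        field_simp
    _ ≤ m / (n : ℝ) * (B * ∑ q ∈ range n, dot γ (w q)) :=
        mul_le_mul_of_nonneg_left h2 (by positivity)
    _ = B * (m / (n : ℝ) * ∑ q ∈ range n, dot γ (w q)) := by ring

end Pool.Agent.HB
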