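import Pool.Agent.HB.L.Good
import Pool.Agent.HB.T.Gamma

/-!
# HB.L.Code: the code parts `Lc c` of the norm `Lf`

PROOFS.
* `Lc_le_L`: `gamc_sub`.  `coord_le_L`: `single i 1 ∈ Gam`, `Phi (single i 1) x = ‖x i‖³`.
* `coord_le_Lc`: `single i (1/m c) ∈ Gamc c`, `Phi = ‖x i‖³ / √m c`.
* `Lc_cube_le`: `gamc_le`: `γ i ≤ 1/m c`.
* `sum_Lc_pow`: let `A c = Lc c x ^3`; if `∑ A⁴ = 0` trivial.  Given `δ>0` choose `γ c ∈ Gamc c` with `Phi (γ c) x ≥ A c - δ`.
  `b c = A c² / √(∑A⁴)`, so `∑ b² = 1`, `γ = ∑ b c • γ c ∈ Gam` (`gam_comb`).  With `θ c = A c³/(∑A⁴)^{3/4}`: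
  `∑ θ c √(γ c)_i ≤ √(∑ θ c²/b c) √(∑ b c (γ c)_i)` (sum over `A c ≠ 0`), `θ²/b = A c⁴/∑A⁴`, so `∑ θ²/b = 1` and
  `Lf(x)³ ≥ Phi γ x ≥ ∑ θ c Phi (γ c) x ≥ ∑ θ c (A c - δ) → ∑A⁴/(∑A⁴)^{3/4} = (∑ A⁴)^{1/4}`.  Fourth power.
* `sum_L_cube`: choose `γ i ∈ Gam` with `Phi (γ i) (res (E i) x) ≥ Lf(..)³ - δ`, replace `γ i` by `res (E i) (γ i)`; they are successive;
  `γ = (1/m) ∑ γ i ∈ Gamc` (`gamc_avg`); `Lc(x)³ ≥ Phi γ x ≥ ∑_i Phi (γ/m restricted to E i) = m^{-1/2} ∑ Phi (γ i) (res (E i) x)`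
  (`√(γ i/m) = √γ i/√m`; on `E i` only `γ i` is nonzero).
* `dual_avg`: `|pr (g i) x| = |pr (g i) (res (E i) x)| ≤ Lf (res (E i) x)`, `E i` = support of `g i`; Hölder
  `∑_{i<n} a_i ≤ n^{2/3} (∑ a_i³)^{1/3}` and `sum_L_cube`.
-/

open Finset

namespace Pool.Agent.HB

variable (p : Par)

theorem Lc_le_L (c : ℕ) (x : CV) : Lc p c x ≤ Lf p x := by
  refine le_of_pow_le_pow_left₀ (n := 3) (by norm_num) (LG_nonneg (good_gam p) x) ?_
  apply LG_cube_le (good_gamc p c)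
  intro γ hγ
  exact Phi_le_LG (good_gam p) (gamc_sub p c hγ) x

private theorem Phi_single (i : ℕ) (a : ℝ) (x : CV) :
    Phi (Finsupp.single i a) x = ‖x i‖ ^ 3 * √a := by
  rw [Phi_eq_sum _ x (insert i x.support) (subset_insert _ _), sum_eq_single i]
  · rw [Finsupp.single_eq_same]
  · intro k _ hk
    rw [Finsupp.single_eq_of_ne hk, Real.sqrt_zero, mul_zero]
  · intro h
    exact absurd (mem_insert_self _ _) h

theorem coord_le_L (x : CV) (i : ℕ) : ‖x i‖ ≤ Lf p x := by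
  refine le_of_pow_le_pow_left₀ (n := 3) (by norm_num) (LG_nonneg (good_gam p) x) ?_
  have h := Phi_le_LG (good_gam p) (gam_single p i) x
  rwa [Phi_single, Real.sqrt_one, mul_one] at h

theorem coord_le_Lc (c : ℕ) (x : CV) (i : ℕ) : ‖x i‖ ^ 3 ≤ √(p.m c) * Lc p c x ^ 3 := by
  have h := Phi_le_LG (good_gamc p c) (gamc_single p c i) x
  rw [Phi_single] at h
  have hm : 0 < p.m c := par_m_pos p c
  have hs : 0 < √(p.m c) := Real.sqrt_pos.mpr hm
  rw [Real.sqrt_div zero_le_one, Real.sqrt_one, mul_one_div, div_le_iff₀ hs] at h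
  linarith

theorem Lc_cube_le (c : ℕ) (x : CV) : Lc p c x ^ 3 ≤ (1 / √(p.m c)) * ∑ i ∈ x.support, ‖x i‖ ^ 3 := by
  apply LG_cube_le (good_gamc p c)
  intro γ hγ
  unfold Phi
  rw [mul_sum]
  apply sum_le_sum
  intro i _
  rw [mul_comm]
  apply mul_le_mul_of_nonneg_right _ (by positivity)
  have h1 : √(γ i) ≤ √(1 / p.m c) := Real.sqrt_le_sqrt (gamc_le hγ i)
  rwa [Real.sqrt_div zero_le_one, Real.sqrt_one] at h1

private theorem le_of_delta {R A T : ℝ} (hT : 0 ≤ T) (h : ∀ δ : ℝ, 0 < δ → R ≤ A + δ * T) :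
    R ≤ A := by
  apply le_of_forall_pos_le_add
  intro ε hε
  have hT1 : 0 < T + 1 := by linarith
  refine (h (ε / (T + 1)) (by positivity)).trans ?_
  have : ε / (T + 1) * T ≤ ε := by
    rw [div_mul_eq_mul_div, div_le_iff₀ hT1]
    nlinarith
  linarith

theorem sum_Lc_pow (C : Finset ℕ) (x : CV) : ∑ c ∈ C, Lc p c x ^ 12 ≤ Lf p x ^ 12 := by
  set S := ∑ c ∈ C, Lc p c x ^ 12 with hS
  have hLc : ∀ c, 0 ≤ Lc p c x := fun c => LG_nonneg (good_gamc p c) x
  have hLf : 0 ≤ Lf p x := LG_nonneg (good_gam p) x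
  have hS0 : 0 ≤ S := sum_nonneg fun c _ => pow_nonneg (hLc c) 12
  rcases hS0.eq_or_lt with h0 | hSpos
  · rw [← h0]
    positivity
  set R := S ^ ((1 : ℝ) / 4) with hR
  have hRpos : 0 < R := Real.rpow_pos_of_pos hSpos _
  have hR4 : R ^ 4 = S := by
    rw [hR, ← Real.rpow_natCast, ← Real.rpow_mul hS0]
    norm_num
  let e : ℕ → ℝ := fun c => Lc p c x ^ 3 / R
  have he : ∀ c, 0 ≤ e c := fun c => div_nonneg (pow_nonneg (hLc c) 3) hRpos.le
  have hA : ∀ c, Lc p c x ^ 3 = R * e c := fun c => by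
    simp only [e]
    field_simp
  have he4 : ∑ c ∈ C, e c ^ 4 = 1 := by
    simp only [e, div_pow, ← pow_mul]
    rw [← sum_div, ← hS, hR4]
    exact div_self hSpos.ne'
  have key : R ≤ Lf p x ^ 3 := by
    apply le_of_delta (T := ∑ c ∈ C, e c ^ 3) (sum_nonneg fun c _ => pow_nonneg (he c) 3)
    intro δ hδ
    choose γ hγ hγ2 using fun c => LG_exists (good_gamc p c) x hδ
    have hmem : ∑ c ∈ C, (e c ^ 2) • γ c ∈ Gam p := by
      apply gam_comb C _ (fun c _ => sq_nonneg _) _ γ (fun c _ => hγ c)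
      rw [← he4]
      apply le_of_eq
      apply sum_congr rfl
      intro c _
      ring
    have h1 := Phi_le_LG (good_gam p) hmem x
    have h2 : ∑ c ∈ C, e c ^ 3 * Phi (γ c) x ≤ Phi (∑ c ∈ C, (e c ^ 2) • γ c) x := by
      unfold Phi
      simp only [mul_sum]
      rw [sum_comm]
      apply sum_le_sum
      intro i _
      have h3 : ∑ c ∈ C, e c ^ 3 * √(γ c i) ≤ √((∑ c ∈ C, (e c ^ 2) • γ c) i) := by
        apply Real.le_sqrt_of_sq_le
        have hnn : ∀ c, 0 ≤ γ c i := fun c => (hγ c).1 i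
        have h4 := sum_mul_sq_le_sq_mul_sq C (fun c => e c ^ 2) (fun c => e c * √(γ c i))
        have e1 : ∑ c ∈ C, e c ^ 2 * (e c * √(γ c i)) = ∑ c ∈ C, e c ^ 3 * √(γ c i) := by
          apply sum_congr rfl
          intro c _
          ring
        have e2 : ∑ c ∈ C, (e c ^ 2) ^ 2 = 1 := by
          rw [← he4]
          apply sum_congr rfl
          intro c _
          ring
        have e3 : ∑ c ∈ C, (e c * √(γ c i)) ^ 2 = (∑ c ∈ C, (e c ^ 2) • γ c) i := by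
          rw [Finsupp.finsetSum_apply]
          apply sum_congr rfl
          intro c _
          rw [mul_pow, Real.sq_sqrt (hnn c)]
          rfl
        rw [e1, e2, e3, one_mul] at h4
        exact h4
      calc ∑ c ∈ C, e c ^ 3 * (‖x i‖ ^ 3 * √(γ c i))
          = ‖x i‖ ^ 3 * ∑ c ∈ C, e c ^ 3 * √(γ c i) := by
            rw [mul_sum]
            apply sum_congr rfl
            intro c _
            ring
        _ ≤ _ := mul_le_mul_of_nonneg_left h3 (by positivity)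
    have h5 : ∑ c ∈ C, e c ^ 3 * (R * e c - δ) ≤ ∑ c ∈ C, e c ^ 3 * Phi (γ c) x := by
      apply sum_le_sum
      intro c _
      apply mul_le_mul_of_nonneg_left _ (pow_nonneg (he c) 3)
      rw [← hA c]
      exact hγ2 c
    have h6 : ∑ c ∈ C, e c ^ 3 * (R * e c - δ) = R - δ * ∑ c ∈ C, e c ^ 3 := by
      have : ∀ c ∈ C, e c ^ 3 * (R * e c - δ) = R * e c ^ 4 - δ * e c ^ 3 := fun c _ => by ring
      rw [sum_congr rfl this, sum_sub_distrib, ← mul_sum, ← mul_sum, he4, mul_one]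
    rw [h6] at h5
    linarith
  calc S = R ^ 4 := hR4.symm
    _ ≤ (Lf p x ^ 3) ^ 4 := pow_le_pow_left₀ hRpos.le key 4
    _ = Lf p x ^ 12 := by ring

theorem sum_L_cube (c : ℕ) (E : ℕ → Set ℕ)
    (hE : ∀ i j, i < j → ∀ a ∈ E i, ∀ b ∈ E j, a < b) (x : CV) :
    ∑ i ∈ range (p.n c), Lf p (res (E i) x) ^ 3 ≤ √(p.m c) * Lc p c x ^ 3 := by
  have hm : 0 < p.m c := par_m_pos p c
  have hs : 0 < √(p.m c) := Real.sqrt_pos.mpr hm
  apply le_of_delta (T := (p.n c : ℝ)) (by positivity)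
  intro δ hδ
  choose γ hγ hγ2 using fun i => LG_exists (good_gam p) (res (E i) x) hδ
  have hγ' : ∀ i, res (E i) (γ i) ∈ Gam p := fun i => (good_gam p).res _ (hγ i) (E i)
  have hsucc : ∀ i j, i < j → Lt (res (E i) (γ i)) (res (E j) (γ j)) := by
    intro i j hij a ha b hb
    exact hE i j hij a ((res_support _ _).mp ha).1 b ((res_support _ _).mp hb).1
  have hmem := gamc_avg (p := p) (c := c) (γ := fun i => res (E i) (γ i)) (fun i _ => hγ' i)
    (fun i _ j _ hij => hsucc i j hij)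
  have h1 := Phi_le_LG (good_gamc p c) hmem x
  rw [Phi_smul_left _ (by positivity), Real.sqrt_div zero_le_one, Real.sqrt_one,
    one_div_mul_eq_div, div_le_iff₀ hs] at h1
  have h2 : ∑ i ∈ range (p.n c), Phi (res (E i) (γ i)) x ≤
      Phi (∑ i ∈ range (p.n c), res (E i) (γ i)) x := by
    unfold Phi
    rw [sum_comm]
    apply sum_le_sum
    intro k _
    rw [← mul_sum]
    apply mul_le_mul_of_nonneg_left _ (by positivity)
    rw [Finsupp.finsetSum_apply]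
    by_cases hk : ∃ i0 ∈ range (p.n c), k ∈ E i0
    · obtain ⟨i0, hi0, hki0⟩ := hk
      rw [sum_eq_single_of_mem i0 hi0]
      · apply Real.sqrt_le_sqrt
        exact single_le_sum (f := fun i => res (E i) (γ i) k) (fun i _ => (hγ' i).1 k) hi0
      · intro i _ hne
        rw [res_apply_not_mem, Real.sqrt_zero]
        intro hki
        rcases lt_or_gt_of_ne hne with h | h
        · exact lt_irrefl _ (hE i i0 h k hki k hki0)
        · exact lt_irrefl _ (hE i0 i h k hki0 k hki)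
    · push Not at hk
      rw [sum_eq_zero]
      · exact Real.sqrt_nonneg _
      · intro i hi
        rw [res_apply_not_mem _ _ (hk i hi), Real.sqrt_zero]
  have h3 : ∑ i ∈ range (p.n c), (Lf p (res (E i) x) ^ 3 - δ) ≤
      ∑ i ∈ range (p.n c), Phi (res (E i) (γ i)) x := by
    apply sum_le_sum
    intro i _
    rw [Phi_res_left]
    exact hγ2 i
  rw [sum_sub_distrib, sum_const, card_range, nsmul_eq_mul] at h3
  have h4 : δ * (p.n c : ℝ) = (p.n c : ℝ) * δ := mul_comm _ _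
  have h5 : √(p.m c) * Lc p c x ^ 3 = Lc p c x ^ 3 * √(p.m c) := mul_comm _ _
  rw [h4, h5]
  linarith

theorem dual_avg (c : ℕ) (g : ℕ → CV) (hs : ∀ i j, i < j → Lt (g i) (g j))
    (hg : ∀ i < p.n c, ∀ x, ‖pr (g i) x‖ ≤ Lf p x) (x : CV) :
    ∑ i ∈ range (p.n c), ‖pr (g i) x‖ ≤
      (p.n c : ℝ) ^ ((2 : ℝ) / 3) * (p.m c) ^ ((1 : ℝ) / 6) * Lc p c x := by
  have hm : 0 < p.m c := par_m_pos p c
  have hn : 0 < (p.n c : ℝ) := by exact_mod_cast par_n_pos p c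
  have hLc : 0 ≤ Lc p c x := LG_nonneg (good_gamc p c) x
  have h1 := sum_L_cube p c (fun i => ((g i).support : Set ℕ))
    (fun i j hij a ha b hb => hs i j hij a ha b hb) x
  have h2 : ∑ i ∈ range (p.n c), ‖pr (g i) x‖ ^ 3 ≤ √(p.m c) * Lc p c x ^ 3 := by
    refine le_trans (sum_le_sum ?_) h1
    intro i hi
    apply pow_le_pow_left₀ (norm_nonneg _)
    rw [pr_eq_res ((g i).support : Set ℕ) (g i) x (fun k hk => hk)]
    exact hg i (mem_range.mp hi) _
  have h3 := pow_sum_div_card_le_sum_pow (s := range (p.n c)) (f := fun i => ‖pr (g i) x‖)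
    (fun i _ => norm_nonneg _) 2
  rw [card_range, div_le_iff₀ (by positivity)] at h3
  norm_num at h3
  refine le_of_pow_le_pow_left₀ (n := 3) (by norm_num) (by positivity) ?_
  have e1 : ((p.n c : ℝ) ^ ((2 : ℝ) / 3) * (p.m c) ^ ((1 : ℝ) / 6) * Lc p c x) ^ 3 =
      (p.n c : ℝ) ^ 2 * √(p.m c) * Lc p c x ^ 3 := by
    rw [mul_pow, mul_pow]
    congr 2
    · rw [← Real.rpow_natCast, ← Real.rpow_mul hn.le]
      norm_num
    · rw [← Real.rpow_natCast, ← Real.rpow_mul hm.le, Real.sqrt_eq_rpow]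
      norm_num
  rw [e1]
  refine h3.trans ?_
  calc (∑ i ∈ range (p.n c), ‖pr (g i) x‖ ^ 3) * (p.n c : ℝ) ^ 2
      ≤ (√(p.m c) * Lc p c x ^ 3) * (p.n c : ℝ) ^ 2 :=
        mul_le_mul_of_nonneg_right h2 (by positivity)
    _ = (p.n c : ℝ) ^ 2 * √(p.m c) * Lc p c x ^ 3 := by ring

end Pool.Agent.HB
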