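import Pool.Agent.HB.T.Dot

/-!
# HB.L.Good: the lattice norms `LG Γ`, `Γ` a `GoodSet`: elementary properties

PROOFS.  `Phi γ x = ∑_{i∈s} ‖x i‖³ √γ_i` for every finset `s ⊇ x.support`.  `0 ≤ Phi γ x ≤ ∑ ‖x i‖³` for `γ ∈ Γ`
(`le_one`), so the set is bounded and nonempty (`zero`); `LG Γ x ^ 3 = sSup (...)` (`Real.rpow_natCast`,
`rpow_mul`, the sup is `≥ 0`).
* `LG_smul`: `Phi γ (a•x) = ‖a‖³ Phi γ x`.
* `Phi_add`: Minkowski for the weights `w_i = √γ_i`: `(∑ ‖x i + y i‖³ w_i)^{1/3} ≤ (∑ ‖x i‖³ w_i)^{1/3} + (∑ ‖y i‖³ w_i)^{1/3}`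
  (`Real.Lp_add_le` with `f i = ‖x i‖ w_i^{1/3}`).  Triangle inequality of `LG` by sup (monotone cube root).
* `LG_mono`, `LG_res_le`: termwise.
* `LG_disj`: for disjoint supports `Phi γ (∑ x_r) = ∑ Phi γ (x_r) ≤ ∑ LG(x_r)³`.
* `LG_cont`: `|LG x - LG y| ≤ LG (x - y) ≤ (∑_{i<n} ‖x i - y i‖³)^{1/3}`, and the right side tends to `0`.
-/

open Finset

namespace Pool.Agent.HB

theorem Phi_eq_sum (γ : RV) (x : CV) (s : Finset ℕ) (h : x.support ⊆ s) :
    Phi γ x = ∑ i ∈ s, ‖x i‖ ^ 3 * √(γ i) := by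
  unfold Phi
  refine Finset.sum_subset h fun i _ hi => ?_
  rw [Finsupp.notMem_support_iff.1 hi, norm_zero]
  ring

theorem Phi_nonneg (γ : RV) (x : CV) : 0 ≤ Phi γ x :=
  Finset.sum_nonneg fun _ _ => mul_nonneg (pow_nonneg (norm_nonneg _) _) (Real.sqrt_nonneg _)

theorem Phi_smul (γ : RV) (a : ℂ) (x : CV) : Phi γ (a • x) = ‖a‖ ^ 3 * Phi γ x := by
  rw [Phi_eq_sum γ (a • x) x.support Finsupp.support_smul, Phi, Finset.mul_sum]
  refine Finset.sum_congr rfl fun i _ => ?_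
  rw [Finsupp.smul_apply, smul_eq_mul, norm_mul]
  ring

theorem Phi_smul_left (a : ℝ) (ha : 0 ≤ a) (γ : RV) (x : CV) : Phi (a • γ) x = √a * Phi γ x := by
  unfold Phi
  rw [Finset.mul_sum]
  refine Finset.sum_congr rfl fun i _ => ?_
  rw [Finsupp.smul_apply, smul_eq_mul, Real.sqrt_mul ha]
  ring

private theorem root_pow (u w : ℝ) (hw : 0 ≤ w) :
    (u * w ^ ((1 : ℝ) / 3)) ^ (3 : ℝ) = u ^ 3 * w := by
  have h1 : (w ^ ((1 : ℝ) / 3)) ^ 3 = w := by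
    have h2 : ((1 : ℝ) / 3) = (((3 : ℕ) : ℝ))⁻¹ := by norm_num
    rw [h2]
    exact Real.rpow_inv_natCast_pow hw (by norm_num)
  have h3 : (3 : ℝ) = ((3 : ℕ) : ℝ) := by norm_num
  rw [h3, Real.rpow_natCast, mul_pow, ← h3, h1]

theorem Phi_add (γ : RV) (x y : CV) :
    (Phi γ (x + y)) ^ ((1 : ℝ) / 3) ≤ (Phi γ x) ^ ((1 : ℝ) / 3) + (Phi γ y) ^ ((1 : ℝ) / 3) := by
  classical
  have hs : (x + y).support ⊆ x.support ∪ y.support := Finsupp.support_add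
  have hw : ∀ i, 0 ≤ √(γ i) ^ ((1 : ℝ) / 3) := fun i => Real.rpow_nonneg (Real.sqrt_nonneg _) _
  have key := Real.Lp_add_le_of_nonneg (x.support ∪ y.support)
    (f := fun i => ‖x i‖ * √(γ i) ^ ((1 : ℝ) / 3)) (g := fun i => ‖y i‖ * √(γ i) ^ ((1 : ℝ) / 3))
    (p := 3) (by norm_num) (fun i _ => mul_nonneg (norm_nonneg _) (hw i))
    (fun i _ => mul_nonneg (norm_nonneg _) (hw i))
  simp only [← add_mul] at key
  simp only [root_pow _ _ (Real.sqrt_nonneg _)] at key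
  rw [Phi_eq_sum γ (x + y) _ hs, Phi_eq_sum γ x _ Finset.subset_union_left,
    Phi_eq_sum γ y _ Finset.subset_union_right]
  refine le_trans ?_ key
  refine Real.rpow_le_rpow (Finset.sum_nonneg fun i _ =>
    mul_nonneg (pow_nonneg (norm_nonneg _) _) (Real.sqrt_nonneg _)) ?_ (by norm_num)
  refine Finset.sum_le_sum fun i _ => mul_le_mul_of_nonneg_right ?_ (Real.sqrt_nonneg _)
  rw [Finsupp.add_apply]
  exact pow_le_pow_left₀ (norm_nonneg _) (norm_add_le _ _) _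

theorem Phi_mono (γ : RV) {x y : CV} (h : ∀ i, ‖x i‖ ≤ ‖y i‖) : Phi γ x ≤ Phi γ y := by
  classical
  rw [Phi_eq_sum γ x (x.support ∪ y.support) Finset.subset_union_left,
    Phi_eq_sum γ y (x.support ∪ y.support) Finset.subset_union_right]
  exact Finset.sum_le_sum fun i _ => mul_le_mul_of_nonneg_right
    (pow_le_pow_left₀ (norm_nonneg _) (h i) _) (Real.sqrt_nonneg _)

private theorem res_supp_sub {α : Type} [Zero α] (E : Set ℕ) (x : ℕ →₀ α) :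
    (res E x).support ⊆ x.support := by
  intro i hi
  exact ((res_support E x).1 hi).2

theorem Phi_res_left (E : Set ℕ) (γ : RV) (x : CV) : Phi (res E γ) x = Phi γ (res E x) := by
  classical
  rw [Phi_eq_sum γ (res E x) x.support (res_supp_sub E x), Phi]
  refine Finset.sum_congr rfl fun i _ => ?_
  by_cases hi : i ∈ E
  · rw [res_apply_mem E γ hi, res_apply_mem E x hi]
  · rw [res_apply_not_mem E γ hi, res_apply_not_mem E x hi, Real.sqrt_zero, norm_zero]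
    ring

theorem Phi_disj {ι : Type} (s : Finset ι) (x : ι → CV)
    (hd : ∀ r ∈ s, ∀ r' ∈ s, r ≠ r' → Disjoint (x r).support (x r').support) (γ : RV) :
    Phi γ (∑ r ∈ s, x r) = ∑ r ∈ s, Phi γ (x r) := by
  classical
  obtain ⟨S, hS⟩ : ∃ S : Finset ℕ, S = s.biUnion fun r => (x r).support := ⟨_, rfl⟩
  have h1 : (∑ r ∈ s, x r).support ⊆ S := by
    rw [hS]
    exact Finsupp.support_finsetSum
  have h2 : ∀ r ∈ s, (x r).support ⊆ S := fun r hr => by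
    rw [hS]
    exact Finset.subset_biUnion_of_mem (fun r => (x r).support) hr
  rw [Phi_eq_sum γ _ S h1, Finset.sum_congr rfl fun r hr => Phi_eq_sum γ (x r) S (h2 r hr),
    Finset.sum_comm]
  refine Finset.sum_congr rfl fun i _ => ?_
  rw [← Finset.sum_mul]
  congr 1
  rw [Finsupp.finsetSum_apply]
  by_cases h0 : ∃ r ∈ s, x r i ≠ 0
  · obtain ⟨r, hr, hri⟩ := h0
    have h3 : ∀ r' ∈ s, r' ≠ r → x r' i = 0 := by
      intro r' hr' hne
      by_contra h4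
      exact Finset.disjoint_left.1 (hd r' hr' r hr hne) (Finsupp.mem_support_iff.2 h4)
        (Finsupp.mem_support_iff.2 hri)
    rw [Finset.sum_eq_single r h3 (fun h => absurd hr h),
      Finset.sum_eq_single r (fun r' hr' hne => by rw [h3 r' hr' hne, norm_zero]; ring)
        (fun h => absurd hr h)]
  · push Not at h0
    rw [Finset.sum_eq_zero h0, Finset.sum_eq_zero fun r hr => by rw [h0 r hr, norm_zero]; ring,
      norm_zero]
    ring

variable {Γ : Set RV}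

private theorem Phi_le_sum (h : GoodSet Γ) {γ : RV} (hγ : γ ∈ Γ) (x : CV) :
    Phi γ x ≤ ∑ i ∈ x.support, ‖x i‖ ^ 3 := by
  refine Finset.sum_le_sum fun i _ => ?_
  have h1 : √(γ i) ≤ 1 := by
    rw [Real.sqrt_le_one]
    exact h.le_one γ hγ i
  exact mul_le_of_le_one_right (pow_nonneg (norm_nonneg _) _) h1

private theorem bdd (h : GoodSet Γ) (x : CV) : BddAbove ((fun γ => Phi γ x) '' Γ) := by
  refine ⟨∑ i ∈ x.support, ‖x i‖ ^ 3, ?_⟩
  rintro _ ⟨γ, hγ, rfl⟩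
  exact Phi_le_sum h hγ x

private theorem sup_nonneg (Γ : Set RV) (x : CV) : 0 ≤ sSup ((fun γ => Phi γ x) '' Γ) := by
  refine Real.sSup_nonneg ?_
  rintro _ ⟨γ, _, rfl⟩
  exact Phi_nonneg γ x

private theorem LG_cube (Γ : Set RV) (x : CV) :
    LG Γ x ^ 3 = sSup ((fun γ => Phi γ x) '' Γ) := by
  unfold LG
  have h2 : ((1 : ℝ) / 3) = (((3 : ℕ) : ℝ))⁻¹ := by norm_num
  rw [h2]
  exact Real.rpow_inv_natCast_pow (sup_nonneg Γ x) (by norm_num)

theorem LG_nonneg (h : GoodSet Γ) (x : CV) : 0 ≤ LG Γ x :=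
  Real.rpow_nonneg (sup_nonneg Γ x) _

theorem Phi_le_LG (h : GoodSet Γ) {γ : RV} (hγ : γ ∈ Γ) (x : CV) : Phi γ x ≤ LG Γ x ^ 3 := by
  rw [LG_cube]
  exact le_csSup (bdd h x) ⟨γ, hγ, rfl⟩

theorem LG_cube_le (h : GoodSet Γ) {x : CV} {A : ℝ} (hA : ∀ γ ∈ Γ, Phi γ x ≤ A) :
    LG Γ x ^ 3 ≤ A := by
  rw [LG_cube]
  refine csSup_le ⟨_, 0, h.zero, rfl⟩ ?_
  rintro _ ⟨γ, hγ, rfl⟩
  exact hA γ hγ

theorem LG_exists (h : GoodSet Γ) (x : CV) {ε : ℝ} (hε : 0 < ε) :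
    ∃ γ ∈ Γ, LG Γ x ^ 3 - ε ≤ Phi γ x := by
  rw [LG_cube]
  obtain ⟨_, ⟨γ, hγ, rfl⟩, h1⟩ := exists_lt_of_lt_csSup
    (s := (fun γ => Phi γ x) '' Γ) ⟨_, 0, h.zero, rfl⟩ (sub_lt_self _ hε)
  exact ⟨γ, hγ, h1.le⟩

private theorem LG_le_of_cube (h : GoodSet Γ) {x : CV} {A : ℝ} (hA : 0 ≤ A)
    (h1 : LG Γ x ^ 3 ≤ A ^ 3) : LG Γ x ≤ A :=
  le_of_pow_le_pow_left₀ (by norm_num) hA h1

private theorem LG_smul_le (h : GoodSet Γ) (a : ℂ) (x : CV) : LG Γ (a • x) ≤ ‖a‖ * LG Γ x := by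
  refine LG_le_of_cube h (mul_nonneg (norm_nonneg _) (LG_nonneg h x)) ?_
  refine LG_cube_le h fun γ hγ => ?_
  rw [Phi_smul, mul_pow]
  exact mul_le_mul_of_nonneg_left (Phi_le_LG h hγ x) (pow_nonneg (norm_nonneg _) _)

theorem LG_smul (h : GoodSet Γ) (a : ℂ) (x : CV) : LG Γ (a • x) = ‖a‖ * LG Γ x := by
  refine le_antisymm (LG_smul_le h a x) ?_
  by_cases ha : a = 0
  · rw [ha, norm_zero, zero_mul]
    exact LG_nonneg h _
  · have h1 := LG_smul_le h a⁻¹ (a • x)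
    rw [smul_smul, inv_mul_cancel₀ ha, one_smul, norm_inv] at h1
    have h2 : 0 < ‖a‖ := norm_pos_iff.2 ha
    rw [← div_eq_inv_mul, le_div_iff₀ h2, mul_comm] at h1
    exact h1

theorem LG_zero (h : GoodSet Γ) : LG Γ 0 = 0 := by
  have h1 := LG_smul h (0 : ℂ) (0 : CV)
  rw [zero_smul, norm_zero, zero_mul] at h1
  exact h1

theorem LG_neg (h : GoodSet Γ) (x : CV) : LG Γ (-x) = LG Γ x := by
  have h1 := LG_smul h (-1 : ℂ) x
  rw [neg_smul, one_smul, norm_neg, norm_one, one_mul] at h1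
  exact h1

private theorem root_le (h : GoodSet Γ) {γ : RV} (hγ : γ ∈ Γ) (x : CV) :
    (Phi γ x) ^ ((1 : ℝ) / 3) ≤ LG Γ x := by
  refine Real.rpow_le_rpow (Phi_nonneg γ x) ?_ (by norm_num)
  exact le_csSup (bdd h x) ⟨γ, hγ, rfl⟩

theorem LG_add_le (h : GoodSet Γ) (x y : CV) : LG Γ (x + y) ≤ LG Γ x + LG Γ y := by
  refine LG_le_of_cube h (add_nonneg (LG_nonneg h x) (LG_nonneg h y)) ?_
  refine LG_cube_le h fun γ hγ => ?_
  have h1 := (Phi_add γ x y).trans (add_le_add (root_le h hγ x) (root_le h hγ y))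
  have h2 : ((1 : ℝ) / 3) = (((3 : ℕ) : ℝ))⁻¹ := by norm_num
  have h3 : ((Phi γ (x + y)) ^ ((1 : ℝ) / 3)) ^ 3 = Phi γ (x + y) := by
    rw [h2]
    exact Real.rpow_inv_natCast_pow (Phi_nonneg _ _) (by norm_num)
  rw [← h3]
  exact pow_le_pow_left₀ (Real.rpow_nonneg (Phi_nonneg _ _) _) h1 _

theorem LG_sum_le {ι : Type} (h : GoodSet Γ) (s : Finset ι) (x : ι → CV) :
    LG Γ (∑ r ∈ s, x r) ≤ ∑ r ∈ s, LG Γ (x r) := by
  classical
  induction s using Finset.induction_on with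
  | empty => rw [Finset.sum_empty, Finset.sum_empty, LG_zero h]
  | insert a s ha ih =>
    rw [Finset.sum_insert ha, Finset.sum_insert ha]
    exact (LG_add_le h _ _).trans (add_le_add le_rfl ih)

theorem LG_mono (h : GoodSet Γ) {x y : CV} (hxy : ∀ i, ‖x i‖ ≤ ‖y i‖) : LG Γ x ≤ LG Γ y := by
  refine LG_le_of_cube h (LG_nonneg h y) ?_
  exact LG_cube_le h fun γ hγ => (Phi_mono γ hxy).trans (Phi_le_LG h hγ y)

theorem LG_res_le (h : GoodSet Γ) (E : Set ℕ) (x : CV) : LG Γ (res E x) ≤ LG Γ x := by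
  refine LG_mono h fun i => ?_
  by_cases hi : i ∈ E
  · rw [res_apply_mem E x hi]
  · rw [res_apply_not_mem E x hi, norm_zero]
    exact norm_nonneg _

theorem LG_disj {ι : Type} (h : GoodSet Γ) (s : Finset ι) (x : ι → CV)
    (hd : ∀ r ∈ s, ∀ r' ∈ s, r ≠ r' → Disjoint (x r).support (x r').support) :
    LG Γ (∑ r ∈ s, x r) ^ 3 ≤ ∑ r ∈ s, LG Γ (x r) ^ 3 := by
  refine LG_cube_le h fun γ hγ => ?_
  rw [Phi_disj s x hd]
  exact Finset.sum_le_sum fun r _ => Phi_le_LG h hγ (x r)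

theorem LG_le_sum (h : GoodSet Γ) (x : CV) : LG Γ x ^ 3 ≤ ∑ i ∈ x.support, ‖x i‖ ^ 3 :=
  LG_cube_le h fun _ hγ => Phi_le_sum h hγ x

theorem LG_cont {T : Type} [TopologicalSpace T] (h : GoodSet Γ) (F : T → CV) (n : ℕ)
    (h0 : ∀ t, ∀ i, n ≤ i → F t i = 0) (hc : ∀ i, Continuous fun t => F t i) :
    Continuous fun t => LG Γ (F t) := by
  rw [continuous_iff_continuousAt]
  intro t₀
  have h1 : ∀ t, ‖LG Γ (F t) - LG Γ (F t₀)‖ ≤
      (∑ i ∈ range n, ‖F t i - F t₀ i‖ ^ 3) ^ ((1 : ℝ) / 3) := by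
    intro t
    have h2 : ‖LG Γ (F t) - LG Γ (F t₀)‖ ≤ LG Γ (F t - F t₀) := by
      rw [Real.norm_eq_abs, abs_sub_le_iff]
      constructor
      · have := LG_add_le h (F t - F t₀) (F t₀)
        rw [sub_add_cancel] at this
        linarith
      · have := LG_add_le h (F t₀ - F t) (F t)
        rw [sub_add_cancel, ← neg_sub (F t) (F t₀), LG_neg h] at this
        linarith
    refine h2.trans ?_
    have h3 : (F t - F t₀).support ⊆ range n := by
      intro i hi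
      rw [Finset.mem_range]
      by_contra h4
      rw [Finsupp.mem_support_iff, Finsupp.sub_apply, h0 t i (not_lt.1 h4),
        h0 t₀ i (not_lt.1 h4), sub_zero] at hi
      exact hi rfl
    have h4 : LG Γ (F t - F t₀) ^ 3 ≤ ∑ i ∈ range n, ‖F t i - F t₀ i‖ ^ 3 := by
      refine (LG_le_sum h _).trans ?_
      refine Finset.sum_le_sum_of_subset_of_nonneg h3 fun i _ _ => ?_
      exact pow_nonneg (norm_nonneg _) _
    have h5 : (LG Γ (F t - F t₀) ^ 3) ^ ((1 : ℝ) / 3) = LG Γ (F t - F t₀) := by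
      have h6 : ((1 : ℝ) / 3) = (((3 : ℕ) : ℝ))⁻¹ := by norm_num
      rw [h6]
      exact Real.pow_rpow_inv_natCast (LG_nonneg h _) (by norm_num)
    rw [← h5]
    exact Real.rpow_le_rpow (pow_nonneg (LG_nonneg h _) _) h4 (by norm_num)
  have h7 : Continuous fun t => (∑ i ∈ range n, ‖F t i - F t₀ i‖ ^ 3) ^ ((1 : ℝ) / 3) := by
    refine Continuous.rpow_const ?_ fun _ => Or.inr (by norm_num)
    exact continuous_finsetSum _ fun i _ => (((hc i).sub continuous_const).norm).pow 3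
  have h8 : Filter.Tendsto (fun t => (∑ i ∈ range n, ‖F t i - F t₀ i‖ ^ 3) ^ ((1 : ℝ) / 3))
      (nhds t₀) (nhds 0) := by
    have h9 := h7.tendsto t₀
    simp only [sub_self, norm_zero] at h9
    rw [zero_pow (by norm_num), Finset.sum_const_zero, Real.zero_rpow (by norm_num)] at h9
    exact h9
  rw [ContinuousAt, tendsto_iff_norm_sub_tendsto_zero]
  exact squeeze_zero (fun _ => norm_nonneg _) h1 h8

end Pool.Agent.HB
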