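import Pool.Agent.HB.L.Good

/-!
# HB.L.Smooth: `LG Γ` is 2-smooth (constant 5) and asymptotically smooth in tail directions

PROOF.
(S0) *Scalar inequality*: for complex `a, h`, `½(|a+h|⁶ + |a-h|⁶) ≤ (|a|² + 5|h|²)³`.
`|a±h|² = A ± B`, `A = |a|²+|h|²`, `|B| ≤ 2|a||h|`, `½((A+B)³+(A-B)³) = A³ + 3AB² ≤ A³ + 12 A |a|²|h|²`; with `p=|a|²`, `q=|h|²`:
`(p+q)³ + 12(p+q)pq = p³+15p²q+15pq²+q³ ≤ p³+15p²q+75pq²+125q³ = (p+5q)³`.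
(S1) Let `γ₊, γ₋ ∈ Γ` and `γ = ½(γ₊+γ₋) ∈ Γ`.  For each `i`, by Cauchy-Schwarz
`½(|a+h|³ √γ₊ + |a-h|³ √γ₋) ≤ (½(|a+h|⁶+|a-h|⁶))^{1/2} (½(γ₊+γ₋))^{1/2} ≤ (|a|²+5|h|²)^{3/2} √γ`, and if `h_i = 0` the left side is
`|a|³ ½(√γ₊+√γ₋) ≤ |a|³ √γ`.  Summing, with `γ₊, γ₋` nearly optimal for `y+h`, `y-h` (`LG_exists`):
`½(LG(y+h)³ + LG(y-h)³) ≤ sup_{γ∈Γ} ∑ (|y_i|²+5|h_i|²)^{3/2} √γ_i`.
(S2) `smooth_cube`: Minkowski in `L^{3/2}` with weights `√γ_i`: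
`(∑ (|y|²+5|h|²)^{3/2} √γ)^{2/3} ≤ (∑ |y|³√γ)^{2/3} + 5 (∑ |h|³√γ)^{2/3} ≤ LG(y)² + 5 LG(h)²`.
(S3) `smooth_sq`: by the power mean inequality `½(u²+v²) ≤ (½(u³+v³))^{2/3}` for `u = LG(y+h)`, `v = LG(y-h)`.
(S4) `smooth_tail`: `h` supported in `[n, ∞)`.  For `i < n` the term is `≤ |y_i|³√γ_i`, for `i ≥ n` use
`(p+5q)^{3/2} ≤ p^{3/2} + 17 (p^{1/2}+q^{1/2}) q` (mean value theorem: difference `≤ (3/2)(p+5q)^{1/2} 5q`,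
`(p+5q)^{1/2} ≤ p^{1/2} + √5 q^{1/2}`), then Hölder `∑ |y_i||h_i|² √γ_i ≤ (∑_{i≥n} |y_i|³√γ_i)^{1/3} (∑ |h_i|³√γ_i)^{2/3}`:
`½(...) ≤ LG(y)³ + 17 (LG(res (Ici n) y) + LG h) LG(h)²`.
-/

open Finset

namespace Pool.Agent.HB

variable {Γ : Set RV}

private theorem sq32 {a : ℝ} (ha : 0 ≤ a) : (a ^ 2) ^ ((3 : ℝ) / 2) = a ^ 3 := by
  rw [← Real.rpow_natCast a 2, ← Real.rpow_mul ha, ← Real.rpow_natCast a 3]
  norm_num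

private theorem cube23 {a : ℝ} (ha : 0 ≤ a) : (a ^ 3) ^ ((1 : ℝ) / (3 / 2)) = a ^ 2 := by
  rw [← Real.rpow_natCast a 3, ← Real.rpow_mul ha, ← Real.rpow_natCast a 2]
  norm_num

private theorem c32_sq {x : ℝ} (hx : 0 ≤ x) : (x ^ ((3 : ℝ) / 2)) ^ 2 = x ^ 3 := by
  rw [← Real.rpow_natCast (x ^ ((3 : ℝ) / 2)) 2, ← Real.rpow_mul hx, ← Real.rpow_natCast x 3]
  norm_num

private theorem wt {u w : ℝ} (hu : 0 ≤ u) (hw : 0 ≤ w) :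
    (u * w ^ ((2 : ℝ) / 3)) ^ ((3 : ℝ) / 2) = u ^ ((3 : ℝ) / 2) * w := by
  rw [Real.mul_rpow hu (Real.rpow_nonneg hw _), ← Real.rpow_mul hw]
  norm_num

/-- Minkowski -/
private theorem mink (S : Finset ℕ) (w a b : ℕ → ℝ) (hw : ∀ i, 0 ≤ w i) (ha : ∀ i, 0 ≤ a i)
    (hb : ∀ i, 0 ≤ b i) {A B : ℝ} (hA : 0 ≤ A) (hB : 0 ≤ B)
    (h1 : ∑ i ∈ S, a i ^ 3 * w i ≤ A ^ 3) (h2 : ∑ i ∈ S, b i ^ 3 * w i ≤ B ^ 3) :
    ∑ i ∈ S, (a i ^ 2 + b i ^ 2) ^ ((3 : ℝ) / 2) * w i ≤ (A ^ 2 + B ^ 2) ^ ((3 : ℝ) / 2) := by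
  have hw' : ∀ i, 0 ≤ w i ^ ((2 : ℝ) / 3) := fun i => Real.rpow_nonneg (hw i) _
  have key := Real.Lp_add_le_of_nonneg S (f := fun i => a i ^ 2 * w i ^ ((2 : ℝ) / 3))
    (g := fun i => b i ^ 2 * w i ^ ((2 : ℝ) / 3)) (p := (3 : ℝ) / 2) (by norm_num)
    (fun i _ => mul_nonneg (sq_nonneg _) (hw' i)) (fun i _ => mul_nonneg (sq_nonneg _) (hw' i))
  simp only [← add_mul] at key
  rw [Finset.sum_congr rfl fun i _ => wt (add_nonneg (sq_nonneg (a i)) (sq_nonneg (b i))) (hw i),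
    Finset.sum_congr rfl fun i _ => wt (sq_nonneg (a i)) (hw i),
    Finset.sum_congr rfl fun i _ => wt (sq_nonneg (b i)) (hw i)] at key
  have ea : ∑ i ∈ S, (a i ^ 2) ^ ((3 : ℝ) / 2) * w i = ∑ i ∈ S, a i ^ 3 * w i :=
    Finset.sum_congr rfl fun i _ => by rw [sq32 (ha i)]
  have eb : ∑ i ∈ S, (b i ^ 2) ^ ((3 : ℝ) / 2) * w i = ∑ i ∈ S, b i ^ 3 * w i :=
    Finset.sum_congr rfl fun i _ => by rw [sq32 (hb i)]
  rw [ea, eb] at key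
  have hs1 : 0 ≤ ∑ i ∈ S, a i ^ 3 * w i :=
    Finset.sum_nonneg fun i _ => mul_nonneg (pow_nonneg (ha i) _) (hw i)
  have hs2 : 0 ≤ ∑ i ∈ S, b i ^ 3 * w i :=
    Finset.sum_nonneg fun i _ => mul_nonneg (pow_nonneg (hb i) _) (hw i)
  have h3 := Real.rpow_le_rpow hs1 h1 (z := (1 : ℝ) / (3 / 2)) (by norm_num)
  have h4 := Real.rpow_le_rpow hs2 h2 (z := (1 : ℝ) / (3 / 2)) (by norm_num)
  rw [cube23 hA] at h3
  rw [cube23 hB] at h4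
  have hZ : 0 ≤ ∑ i ∈ S, (a i ^ 2 + b i ^ 2) ^ ((3 : ℝ) / 2) * w i :=
    Finset.sum_nonneg fun i _ => mul_nonneg
      (Real.rpow_nonneg (add_nonneg (sq_nonneg _) (sq_nonneg _)) _) (hw i)
  have h5 := Real.rpow_le_rpow (Real.rpow_nonneg hZ _) (key.trans (add_le_add h3 h4))
    (z := (3 : ℝ) / 2) (by norm_num)
  rw [← Real.rpow_mul hZ] at h5
  norm_num at h5
  exact h5

private theorem scal (a h : ℂ) {g₁ g₂ : ℝ} (h1 : 0 ≤ g₁) (h2 : 0 ≤ g₂) :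
    (‖a + h‖ ^ 3 * √g₁ + ‖a - h‖ ^ 3 * √g₂) / 2 ≤
      (‖a‖ ^ 2 + 5 * ‖h‖ ^ 2) ^ ((3 : ℝ) / 2) * √((g₁ + g₂) / 2) := by
  have hX : 0 ≤ ‖a‖ ^ 2 + 5 * ‖h‖ ^ 2 := by positivity
  have hp := parallelogram_law_with_norm ℝ a h
  have e1 : ‖a + h‖ ≤ ‖a‖ + ‖h‖ := norm_add_le a h
  have e2 : ‖a - h‖ ≤ ‖a‖ + ‖h‖ := norm_sub_le a h
  have hP0 : 0 ≤ ‖a + h‖ := norm_nonneg _
  have hQ0 : 0 ≤ ‖a - h‖ := norm_nonneg _
  have hs0 : 0 ≤ ‖a‖ := norm_nonneg _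
  have hq0 : 0 ≤ ‖h‖ := norm_nonneg _
  generalize ‖a + h‖ = P at *
  generalize ‖a - h‖ = Q at *
  generalize ‖a‖ = s at *
  generalize ‖h‖ = q at *
  have hP2 : P ^ 2 ≤ (s + q) ^ 2 := pow_le_pow_left₀ hP0 e1 2
  have hQ2 : Q ^ 2 ≤ (s + q) ^ 2 := pow_le_pow_left₀ hQ0 e2 2
  -- the polynomial inequality
  obtain ⟨B, hB⟩ : ∃ B, B = P ^ 2 - (s ^ 2 + q ^ 2) := ⟨_, rfl⟩
  have hPB : P ^ 2 = (s ^ 2 + q ^ 2) + B := by rw [hB]; ring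
  have hQB : Q ^ 2 = (s ^ 2 + q ^ 2) - B := by rw [hB]; nlinarith
  have hB1 : B ≤ 2 * s * q := by nlinarith
  have hB2 : -(2 * s * q) ≤ B := by nlinarith
  have hBsq : B ^ 2 ≤ 4 * s ^ 2 * q ^ 2 := by
    have := abs_le.2 ⟨hB2, hB1⟩
    have h3 := pow_le_pow_left₀ (abs_nonneg B) this 2
    rw [sq_abs] at h3
    nlinarith
  have hpoly : (P ^ 6 + Q ^ 6) / 2 ≤ (s ^ 2 + 5 * q ^ 2) ^ 3 := by
    have h3 : P ^ 6 = ((s ^ 2 + q ^ 2) + B) ^ 3 := by rw [← hPB]; ring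
    have h4 : Q ^ 6 = ((s ^ 2 + q ^ 2) - B) ^ 3 := by rw [← hQB]; ring
    have h5 : (P ^ 6 + Q ^ 6) / 2 = (s ^ 2 + q ^ 2) ^ 3 + 3 * (s ^ 2 + q ^ 2) * B ^ 2 := by
      rw [h3, h4]; ring
    have h6 : 3 * (s ^ 2 + q ^ 2) * B ^ 2 ≤ 3 * (s ^ 2 + q ^ 2) * (4 * s ^ 2 * q ^ 2) :=
      mul_le_mul_of_nonneg_left hBsq (by positivity)
    rw [h5]
    have h7 : (s ^ 2 + 5 * q ^ 2) ^ 3 - ((s ^ 2 + q ^ 2) ^ 3 +
        3 * (s ^ 2 + q ^ 2) * (4 * s ^ 2 * q ^ 2)) = 60 * s ^ 2 * q ^ 4 + 124 * q ^ 6 := by ring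
    have h8 : 0 ≤ 60 * s ^ 2 * q ^ 4 + 124 * q ^ 6 := by positivity
    linarith
  refine le_of_pow_le_pow_left₀ (n := 2) (by norm_num)
    (mul_nonneg (Real.rpow_nonneg hX _) (Real.sqrt_nonneg _)) ?_
  rw [mul_pow, c32_sq hX, Real.sq_sqrt (by linarith)]
  have hg1 : √g₁ ^ 2 = g₁ := Real.sq_sqrt h1
  have hg2 : √g₂ ^ 2 = g₂ := Real.sq_sqrt h2
  have h9 : ((P ^ 3 * √g₁ + Q ^ 3 * √g₂) / 2) ^ 2 ≤ (P ^ 6 + Q ^ 6) / 2 * ((g₁ + g₂) / 2) := by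
    have h10 : (P ^ 6 + Q ^ 6) / 2 * ((g₁ + g₂) / 2) - ((P ^ 3 * √g₁ + Q ^ 3 * √g₂) / 2) ^ 2 =
        (P ^ 3 * √g₂ - Q ^ 3 * √g₁) ^ 2 / 4 := by
      rw [← hg1, ← hg2]
      simp only [Real.sqrt_sq (Real.sqrt_nonneg _)]
      ring
    have h11 : 0 ≤ (P ^ 3 * √g₂ - Q ^ 3 * √g₁) ^ 2 / 4 := by positivity
    linarith
  exact h9.trans (mul_le_mul_of_nonneg_right hpoly (by linarith))

private theorem pair_le (hΓ : GoodSet Γ) (y h : CV) {γp γm : RV} (hp : γp ∈ Γ) (hm : γm ∈ Γ) :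
    ∃ γ ∈ Γ, (Phi γp (y + h) + Phi γm (y - h)) / 2 ≤
      ∑ i ∈ y.support ∪ h.support, (‖y i‖ ^ 2 + 5 * ‖h i‖ ^ 2) ^ ((3 : ℝ) / 2) * √(γ i) := by
  classical
  refine ⟨(1 / 2 : ℝ) • γp + (1 / 2 : ℝ) • γm, hΓ.conv hp hm (by norm_num) (by norm_num)
    (by norm_num), ?_⟩
  rw [Phi_eq_sum γp (y + h) (y.support ∪ h.support) Finsupp.support_add,
    Phi_eq_sum γm (y - h) (y.support ∪ h.support) Finsupp.support_sub, ← Finset.sum_add_distrib,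
    Finset.sum_div]
  refine Finset.sum_le_sum fun i _ => ?_
  have h1 := scal (y i) (h i) (hΓ.nn γp hp i) (hΓ.nn γm hm i)
  have h2 : ((1 / 2 : ℝ) • γp + (1 / 2 : ℝ) • γm) i = (γp i + γm i) / 2 := by
    rw [Finsupp.add_apply, Finsupp.smul_apply, Finsupp.smul_apply, smul_eq_mul, smul_eq_mul]
    ring
  rw [h2]
  exact h1

private theorem pair_sup (hΓ : GoodSet Γ) (y h : CV) {A : ℝ}
    (hA : ∀ γ ∈ Γ, ∑ i ∈ y.support ∪ h.support,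
      (‖y i‖ ^ 2 + 5 * ‖h i‖ ^ 2) ^ ((3 : ℝ) / 2) * √(γ i) ≤ A) :
    (LG Γ (y + h) ^ 3 + LG Γ (y - h) ^ 3) / 2 ≤ A := by
  refine le_of_forall_pos_le_add fun ε hε => ?_
  obtain ⟨γp, hp, hp'⟩ := LG_exists hΓ (y + h) hε
  obtain ⟨γm, hm, hm'⟩ := LG_exists hΓ (y - h) hε
  obtain ⟨γ, hγ, h1⟩ := pair_le hΓ y h hp hm
  have h2 := hA γ hγ
  linarith

theorem smooth_cube (hΓ : GoodSet Γ) (y h : CV) :
    (LG Γ (y + h) ^ 3 + LG Γ (y - h) ^ 3) / 2 ≤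
      (LG Γ y ^ 2 + 5 * LG Γ h ^ 2) ^ ((3 : ℝ) / 2) := by
  classical
  refine pair_sup hΓ y h fun γ hγ => ?_
  have h5 : √(5 : ℝ) ^ 2 = 5 := Real.sq_sqrt (by norm_num)
  have h1 := mink (y.support ∪ h.support) (fun i => √(γ i)) (fun i => ‖y i‖)
    (fun i => √5 * ‖h i‖) (fun i => Real.sqrt_nonneg _) (fun i => norm_nonneg _)
    (fun i => mul_nonneg (Real.sqrt_nonneg _) (norm_nonneg _)) (LG_nonneg hΓ y)
    (mul_nonneg (Real.sqrt_nonneg 5) (LG_nonneg hΓ h))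
    (by
      rw [← Phi_eq_sum γ y _ Finset.subset_union_left]
      exact Phi_le_LG hΓ hγ y)
    (by
      have h2 := Phi_le_LG hΓ hγ h
      rw [Phi_eq_sum γ h _ (Finset.subset_union_right (s₁ := y.support))] at h2
      have h3 := mul_le_mul_of_nonneg_left h2 (pow_nonneg (Real.sqrt_nonneg 5) 3)
      rw [Finset.mul_sum] at h3
      rw [mul_pow]
      refine le_trans (le_of_eq ?_) h3
      refine Finset.sum_congr rfl fun i _ => ?_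
      ring)
  simp only [mul_pow, h5] at h1
  exact h1

theorem smooth_sq (hΓ : GoodSet Γ) (y h : CV) :
    LG Γ (y + h) ^ 2 + LG Γ (y - h) ^ 2 ≤ 2 * LG Γ y ^ 2 + 10 * LG Γ h ^ 2 := by
  have h1 := smooth_cube hΓ y h
  obtain ⟨u, hu⟩ : ∃ u, u = LG Γ (y + h) := ⟨_, rfl⟩
  obtain ⟨v, hv⟩ : ∃ v, v = LG Γ (y - h) := ⟨_, rfl⟩
  have hu0 : 0 ≤ u := by rw [hu]; exact LG_nonneg hΓ _
  have hv0 : 0 ≤ v := by rw [hv]; exact LG_nonneg hΓ _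
  rw [← hu, ← hv] at h1 ⊢
  obtain ⟨E, hE⟩ : ∃ E, E = LG Γ y ^ 2 + 5 * LG Γ h ^ 2 := ⟨_, rfl⟩
  have hE0 : 0 ≤ E := by rw [hE]; positivity
  rw [← hE] at h1
  have h2 : ((u ^ 3 + v ^ 3) / 2) ^ 2 ≤ E ^ 3 := by
    rw [← c32_sq hE0]
    exact pow_le_pow_left₀ (by positivity) h1 2
  have h3 : ((u ^ 2 + v ^ 2) / 2) ^ 3 ≤ ((u ^ 3 + v ^ 3) / 2) ^ 2 := by
    have h4 : ((u ^ 3 + v ^ 3) / 2) ^ 2 - ((u ^ 2 + v ^ 2) / 2) ^ 3 =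
        (u - v) ^ 2 * (u ^ 4 + 2 * u ^ 3 * v + 2 * u * v ^ 3 + v ^ 4) / 8 := by ring
    have h5 : 0 ≤ (u - v) ^ 2 * (u ^ 4 + 2 * u ^ 3 * v + 2 * u * v ^ 3 + v ^ 4) / 8 := by
      positivity
    linarith
  have h6 := le_of_pow_le_pow_left₀ (by norm_num) hE0 (h3.trans h2)
  rw [hE] at h6
  linarith

/-- Hölder's inequality with exponents `3`, `3/2` -/
private theorem hold (S : Finset ℕ) (w a b : ℕ → ℝ) (hw : ∀ i, 0 ≤ w i) (ha : ∀ i, 0 ≤ a i)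
    (hb : ∀ i, 0 ≤ b i) {A B : ℝ} (hA : 0 ≤ A) (hB : 0 ≤ B)
    (h1 : ∑ i ∈ S, a i ^ 3 * w i ≤ A ^ 3) (h2 : ∑ i ∈ S, b i ^ 3 * w i ≤ B ^ 3) :
    ∑ i ∈ S, a i * b i ^ 2 * w i ≤ A * B ^ 2 := by
  have hz : ∀ (c : ℕ → ℝ), (∀ i, 0 ≤ c i) → ∑ i ∈ S, c i ^ 3 * w i ≤ 0 →
      ∀ i ∈ S, c i * w i = 0 := by
    intro c hc h i hi
    have h3 : ∀ i ∈ S, 0 ≤ c i ^ 3 * w i := fun i _ => mul_nonneg (pow_nonneg (hc i) _) (hw i)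
    have h4 := (Finset.sum_eq_zero_iff_of_nonneg h3).1 (le_antisymm h (Finset.sum_nonneg h3)) i hi
    rcases mul_eq_zero.1 h4 with h5 | h5
    · rw [pow_eq_zero_iff (by norm_num)] at h5
      rw [h5, zero_mul]
    · rw [h5, mul_zero]
  rcases hA.eq_or_lt with hA0 | hA0
  · rw [← hA0] at h1 ⊢
    have h3 := hz a ha (by simpa using h1)
    rw [zero_mul]
    refine le_of_eq (Finset.sum_eq_zero fun i hi => ?_)
    calc a i * b i ^ 2 * w i = (a i * w i) * b i ^ 2 := by ring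
      _ = 0 := by rw [h3 i hi, zero_mul]
  rcases hB.eq_or_lt with hB0 | hB0
  · rw [← hB0] at h2 ⊢
    have h3 := hz b hb (by simpa using h2)
    rw [zero_pow (by norm_num), mul_zero]
    refine le_of_eq (Finset.sum_eq_zero fun i hi => ?_)
    calc a i * b i ^ 2 * w i = (b i * w i) * (a i * b i) := by ring
      _ = 0 := by rw [h3 i hi, zero_mul]
  have hterm : ∀ i ∈ S, a i * b i ^ 2 * w i ≤
      A * B ^ 2 * ((1 / 3) * (a i ^ 3 * w i / A ^ 3) + (2 / 3) * (b i ^ 3 * w i / B ^ 3)) := by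
    intro i _
    have h3 : 0 ≤ (a i / A - b i / B) ^ 2 * (a i / A + 2 * (b i / B)) := by
      have := ha i
      have := hb i
      positivity
    have h4 : A * B ^ 2 * ((1 / 3) * (a i ^ 3 * w i / A ^ 3) + (2 / 3) * (b i ^ 3 * w i / B ^ 3)) -
        a i * b i ^ 2 * w i = A * B ^ 2 * w i / 3 *
          ((a i / A - b i / B) ^ 2 * (a i / A + 2 * (b i / B))) := by
      field_simp
      ring
    have h5 : 0 ≤ A * B ^ 2 * w i / 3 *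
        ((a i / A - b i / B) ^ 2 * (a i / A + 2 * (b i / B))) := by
      have := hw i
      exact mul_nonneg (by positivity) h3
    linarith
  refine (Finset.sum_le_sum hterm).trans ?_
  rw [← Finset.mul_sum, Finset.sum_add_distrib, ← Finset.mul_sum, ← Finset.mul_sum,
    ← Finset.sum_div, ← Finset.sum_div]
  have h6 : (∑ i ∈ S, a i ^ 3 * w i) / A ^ 3 ≤ 1 := (div_le_one (by positivity)).2 h1
  have h7 : (∑ i ∈ S, b i ^ 3 * w i) / B ^ 3 ≤ 1 := (div_le_one (by positivity)).2 h2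
  refine mul_le_of_le_one_right (by positivity) ?_
  linarith

private theorem scal_tail {a b : ℝ} (ha : 0 ≤ a) (hb : 0 ≤ b) :
    (a ^ 2 + 5 * b ^ 2) ^ ((3 : ℝ) / 2) ≤ a ^ 3 + 17 * (a * b ^ 2 + b ^ 3) := by
  have hX : 0 ≤ a ^ 2 + 5 * b ^ 2 := by positivity
  refine le_of_pow_le_pow_left₀ (n := 2) (by norm_num) (by positivity) ?_
  rw [c32_sq hX]
  have h1 : (a ^ 3 + 17 * (a * b ^ 2 + b ^ 3)) ^ 2 - (a ^ 2 + 5 * b ^ 2) ^ 3 =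
      19 * a ^ 4 * b ^ 2 + 34 * a ^ 3 * b ^ 3 + 214 * a ^ 2 * b ^ 4 + 578 * a * b ^ 5 +
        164 * b ^ 6 := by ring
  have h2 : 0 ≤ 19 * a ^ 4 * b ^ 2 + 34 * a ^ 3 * b ^ 3 + 214 * a ^ 2 * b ^ 4 +
      578 * a * b ^ 5 + 164 * b ^ 6 := by positivity
  linarith

theorem smooth_tail (hΓ : GoodSet Γ) (n : ℕ) (y h : CV) (hh : ∀ i, i < n → h i = 0) :
    LG Γ (y + h) ^ 3 + LG Γ (y - h) ^ 3 - 2 * LG Γ y ^ 3 ≤
      34 * (LG Γ (res (Set.Ici n) y) + LG Γ h) * LG Γ h ^ 2 := by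
  classical
  have key : (LG Γ (y + h) ^ 3 + LG Γ (y - h) ^ 3) / 2 ≤
      LG Γ y ^ 3 + 17 * (LG Γ (res (Set.Ici n) y) * LG Γ h ^ 2 + LG Γ h ^ 3) := by
    refine pair_sup hΓ y h fun γ hγ => ?_
    have h1 : ∀ i ∈ y.support ∪ h.support,
        (‖y i‖ ^ 2 + 5 * ‖h i‖ ^ 2) ^ ((3 : ℝ) / 2) * √(γ i) ≤
        ‖y i‖ ^ 3 * √(γ i) + 17 * (‖res (Set.Ici n) y i‖ * ‖h i‖ ^ 2 * √(γ i) +
          ‖h i‖ ^ 3 * √(γ i)) := by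
      intro i _
      have h2 := mul_le_mul_of_nonneg_right (scal_tail (norm_nonneg (y i)) (norm_nonneg (h i)))
        (Real.sqrt_nonneg (γ i))
      refine h2.trans (le_of_eq ?_)
      by_cases hi : i < n
      · rw [hh i hi, norm_zero]
        ring
      · rw [res_apply_mem (Set.Ici n) y (not_lt.1 hi)]
        ring
    refine (Finset.sum_le_sum h1).trans ?_
    rw [Finset.sum_add_distrib, ← Finset.mul_sum, Finset.sum_add_distrib,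
      ← Phi_eq_sum γ y _ Finset.subset_union_left, ← Phi_eq_sum γ h _ Finset.subset_union_right]
    have hsub : (res (Set.Ici n) y).support ⊆ y.support ∪ h.support := fun i hi =>
      Finset.subset_union_left ((res_support _ _).1 hi).2
    have h3 := hold (y.support ∪ h.support) (fun i => √(γ i)) (fun i => ‖res (Set.Ici n) y i‖)
      (fun i => ‖h i‖) (fun i => Real.sqrt_nonneg _) (fun i => norm_nonneg _)
      (fun i => norm_nonneg _) (LG_nonneg hΓ (res (Set.Ici n) y)) (LG_nonneg hΓ h)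
      (by
        rw [← Phi_eq_sum γ (res (Set.Ici n) y) _ hsub]
        exact Phi_le_LG hΓ hγ _)
      (by
        rw [← Phi_eq_sum γ h _ Finset.subset_union_right]
        exact Phi_le_LG hΓ hγ _)
    have h4 := Phi_le_LG hΓ hγ y
    have h5 := Phi_le_LG hΓ hγ h
    linarith
  nlinarith [key]

end Pool.Agent.HB
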